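import Mathlib

open SimpleGraph Relation Equiv

namespace Pool.Agent.H.MP_f65c66_pr

variable {V W X : Type} {T : SimpleGraph V} {T' : SimpleGraph W} {u u' v w : V}

def side (T : SimpleGraph V) (u v : V) : Set V :=
  {w | ReflTransGen (fun a b => T.Adj a b ∧ b ≠ u) v w}

def fn (T : SimpleGraph V) (u v : V) : Prop := T.Adj u v ∧ (side T u v).Finite

def core (T : SimpleGraph V) (u v : V) : Prop := T.Adj u v ∧ ¬ fn T u v ∧ ¬ fn T v u

lemma core.symm (h : core T u v) : core T v u := ⟨h.1.symm, h.2.2, h.2.1⟩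

lemma conn_ind (hc : T.Connected) (v : V) {p : V → Prop} (h0 : p v)
    (h : ∀ a b, T.Adj a b → p a → p b) (w : V) : p w := by
  have := (reachable_iff_reflTransGen v w).1 (hc v w)
  induction this with
  | refl => exact h0
  | tail _ l ih => exact h _ _ l ih

variable [Infinite V]

lemma fn_uniq (hc : T.Connected) (h : fn T u v) (h' : fn T u' v) : u = u' := by
  by_contra hne
  refine Set.infinite_univ ((h.2.union h'.2).subset fun w _ => ?_)
  refine conn_ind hc v (p := (· ∈ side T u v ∪ side T u' v)) (.inl .refl) ?_ w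
  rintro a b l (k | k)
  · by_cases e : b = u
    · exact .inr (.single ⟨e ▸ h.1.symm, e ▸ hne⟩)
    · exact .inl (k.tail ⟨l, e⟩)
  · by_cases e : b = u'
    · exact .inl (.single ⟨e ▸ h'.1.symm, e ▸ Ne.symm hne⟩)
    · exact .inr (k.tail ⟨l, e⟩)

lemma fn_asymm (hc : T.Connected) (h : fn T u v) : ¬ fn T v u := fun h' => by
  refine Set.infinite_univ ((h.2.union h'.2).subset fun w _ => ?_)
  refine conn_ind hc v (p := (· ∈ side T u v ∪ side T v u)) (.inl .refl) ?_ w
  rintro a b l (k | k)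
  · by_cases e : b = u
    · exact .inr (e ▸ .refl)
    · exact .inl (k.tail ⟨l, e⟩)
  · by_cases e : b = v
    · exact .inl (e ▸ .refl)
    · exact .inr (k.tail ⟨l, e⟩)

omit [Infinite V]

lemma side_ne (h : T.Adj u v) (hw : w ∈ side T u v) : w ≠ u := by
  cases hw with
  | refl => exact h.ne'
  | tail _ l => exact l.2

lemma side_sub (ha : T.IsAcyclic) (h : T.Adj v u) (h' : T.Adj v w) (hne : u ≠ w) :
    side T v u ⊆ side T w v := by
  have key : ∀ y ∈ side T v u, (T.deleteEdges {s(v, w)}).Reachable v y := fun y hy => by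
    induction hy with
    | refl => exact Adj.reachable (by simp [h, hne, h.ne'])
    | tail k l ih => exact ih.trans (Adj.reachable (by simp [l.1, l.2, side_ne h k]))
  have nw : ∀ y ∈ side T v u, y ≠ w := fun y hy e =>
    isBridge_iff.1 (isAcyclic_iff_forall_adj_isBridge.1 ha h') (e ▸ key y hy)
  intro y hy
  induction hy with
  | refl => exact .single ⟨h, hne⟩
  | tail k l ih => exact ReflTransGen.tail ih ⟨l.1, nw _ (k.tail l)⟩

lemma fn_down (ha : T.IsAcyclic) (h : fn T u v) (h' : T.Adj v w) (hne : w ≠ u) : fn T v w :=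
  ⟨h', h.2.subset (side_sub ha h' h.1.symm hne)⟩

lemma fn_up (hf : (T.neighborSet v).Finite) (h : T.Adj u v)
    (h' : ∀ w, T.Adj v w → w ≠ u → fn T v w) : fn T u v := by
  have f : {w | T.Adj v w ∧ w ≠ u}.Finite := hf.subset fun w l => l.1
  refine ⟨h, ((f.biUnion fun w l => (h' w l.1 l.2).2).insert v).subset fun y hy => ?_⟩
  induction hy with
  | refl => simp
  | @tail a b k l ih =>
    by_cases e : b = v
    · simp [e]
    rcases ih with rfl | ih
    · exact .inr (Set.mem_biUnion l .refl)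
    · obtain ⟨w, k, k'⟩ := Set.mem_iUnion₂.1 ih
      exact .inr (Set.mem_biUnion k (ReflTransGen.tail k' ⟨l.1, e⟩))

lemma core_two (ha : T.IsAcyclic) (hf : (T.neighborSet v).Finite) (h : core T v u) :
    ∃ w ≠ u, core T v w := by
  by_contra! k
  refine h.2.2 (fn_up hf h.1.symm fun w l e => ?_)
  by_contra l'
  exact k w e ⟨l, l', fun f => h.2.1 (fn_down ha f h.1 e.symm)⟩

lemma no_fn (ha : T.IsAcyclic) (h : ∀ u v, fn T u v → ∃ w, fn T v w) [Infinite V]
    (hc : T.Connected) : ¬ fn T u v := fun f => by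
  obtain ⟨n, hn⟩ : ∃ n, (side T u v).ncard = n := ⟨_, rfl⟩
  induction n using Nat.strong_induction_on generalizing u v with
  | h n ih =>
    obtain ⟨w, k⟩ := h u v f
    have e : w ≠ u := fun e => fn_asymm hc f (e ▸ k)
    refine ih _ (hn ▸ Set.ncard_lt_ncard ⟨side_sub ha k.1 f.1.symm e, fun l => ?_⟩ f.2) k rfl
    exact side_ne k.1 (l .refl) rfl

lemma side_map (σ : T ≃g T') (h : w ∈ side T u v) : σ w ∈ side T' (σ u) (σ v) := by
  induction h with
  | refl => exact .refl
  | tail _ l ih => exact ReflTransGen.tail ih ⟨σ.map_adj_iff.2 l.1, σ.injective.ne l.2⟩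

lemma side_iso (σ : T ≃g T') : side T' (σ u) (σ v) = σ '' side T u v := by
  ext y
  obtain ⟨y, rfl⟩ := σ.surjective y
  rw [σ.injective.mem_set_image]
  exact ⟨fun h => by simpa using side_map σ.symm h, side_map σ⟩

lemma fn_iso (σ : T ≃g T') : fn T' (σ u) (σ v) ↔ fn T u v := by
  rw [fn, fn, side_iso, σ.map_adj_iff, Set.finite_image_iff σ.injective.injOn]

lemma core_iso (σ : T ≃g T') : core T' (σ u) (σ v) ↔ core T u v := by
  rw [core, core, fn_iso, fn_iso, σ.map_adj_iff]

def Cons (T : SimpleGraph V) (φ : V × V → Perm X) (Θ : V → X) : Prop :=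
  ∀ u v, T.Adj u v → φ (u, v) (Θ u) = φ (v, u) (Θ v)

def tr (φ : V × V → Perm X) : {a b : V} → T.Walk a b → X → X
  | _, _, .nil, θ => θ
  | a, _, .cons (v := c) _ p, θ => tr φ p ((φ (c, a)).symm (φ (a, c) θ))

lemma tr_concat (φ : V × V → Perm X) {a b c : V} (p : T.Walk a b) (h : T.Adj b c) (θ : X) :
    tr φ (p.concat h) θ = (φ (c, b)).symm (φ (b, c) (tr φ p θ)) := by
  induction p generalizing θ with
  | nil => rfl
  | cons _ p ih => exact ih _ _

lemma cons_ex (h : T.IsTree) (φ : V × V → Perm X) (o : V) (θ : X) :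
    ∃ Θ, Cons T φ Θ ∧ Θ o = θ := by
  choose p hp hp' using h.existsUnique_path o
  refine ⟨fun v => tr φ (p v) θ, fun u v l => ?_, by simp only [← hp' o .nil (by simp)]; rfl⟩
  by_cases k : u ∈ (p v).support
  · simp only [h.isAcyclic.path_concat (hp u) (hp v) l k, tr_concat, apply_symm_apply]
  · have := hp' u ((p v).concat l.symm) ((hp v).concat k l.symm)
    simp only [← this, tr_concat, apply_symm_apply]

lemma cons_uniq (hc : T.Connected) {φ : V × V → Perm X} {Θ Θ' : V → X} (h : Cons T φ Θ)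
    (h' : Cons T φ Θ') (e : Θ u = Θ' u) : Θ = Θ' := funext <|
  conn_ind hc u e fun a b l k => (φ (b, a)).injective (by rw [← h a b l, ← h' a b l, k])

def Val (T : SimpleGraph V) (φ : V × V → Perm X) (a b : V × X) : Prop :=
  ReflTransGen (fun a b => T.Adj a.1 b.1 ∧ φ (a.1, b.1) a.2 = φ (b.1, a.1) b.2) a b

lemma val_iff (hc : T.Connected) {φ : V × V → Perm X} {Θ : V → X} (h : Cons T φ Θ) {c : X} :
    Val T φ (u, Θ u) (v, c) ↔ c = Θ v := by
  constructor
  · intro k
    change (v, c).2 = Θ (v, c).1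
    generalize (v, c) = b at k
    induction k with
    | refl => rfl
    | tail _ l ih => exact (φ _).injective (by rw [← l.2, ih, h _ _ l.1])
  · rintro rfl
    exact conn_ind hc u (p := fun v => Val T φ (u, Θ u) (v, Θ v)) .refl
      (fun a b l k => ReflTransGen.tail k ⟨l, h a b l⟩) v

def Z2 (p : V → Prop) : Prop := (∀ v, ¬ p v) ∨ ∃ a b, a ≠ b ∧ ∀ v, p v ↔ v = a ∨ v = b

def Adm {d : ℕ} (T : SimpleGraph V) (u : V) (φ : V × V → Perm (Fin d)) : Prop :=
  ∀ c, Z2 fun v => core T u v ∧ (φ (u, v) c).1 < 2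

lemma two_perm {d : ℕ} (hd : 2 ≤ d) {a b : Fin d} (h : a ≠ b) :
    ∃ π : Perm (Fin d), ∀ c, (π c).1 < 2 ↔ c = a ∨ c = b := by
  obtain ⟨π, hπ⟩ := Perm.exists_extending_pair (f := ![a, b]) (g := Fin.castLE hd)
    (by intro i j; fin_cases i <;> fin_cases j <;> simp [h, h.symm]) (Fin.castLE_injective hd)
  refine ⟨π, fun c => ⟨fun l => ?_, ?_⟩⟩
  · have := π.injective (a₁ := c) ((hπ ⟨_, l⟩).trans rfl).symm
    generalize (⟨_, l⟩ : Fin 2) = i at this
    fin_cases i <;> simp_all
  · rintro (rfl | rfl)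
    · exact (congrArg Fin.val (hπ 0)).trans_lt (by simp)
    · exact (congrArg Fin.val (hπ 1)).trans_lt (by simp)

lemma adm_ex {d : ℕ} (ha : T.IsAcyclic) (hf : (T.neighborSet u).Finite)
    (hd : (T.neighborSet u).ncard ≤ d) : ∃ φ : V × V → Perm (Fin d), Adm T u φ := by
  classical
  by_cases h0 : ∀ v, ¬ core T u v
  · exact ⟨1, fun c => .inl fun v h => h0 v h.1⟩
  push Not at h0
  obtain ⟨v, hv⟩ := h0
  obtain ⟨w, hw, hw'⟩ := core_two ha hf hv
  have f : {v | core T u v}.Finite := hf.subset fun _ h => h.1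
  obtain ⟨k, hk⟩ : ∃ k, {v | core T u v}.ncard = k + 2 :=
    Nat.exists_eq_add_of_le' ((Set.one_lt_ncard f).2 ⟨w, hw', v, hv, hw⟩)
  have kd : k + 2 ≤ d := hk ▸ (Set.ncard_le_ncard (fun _ h => h.1) hf).trans hd
  have := f.fintype
  let e : {v | core T u v} ≃ Fin (k + 2) := Fintype.equivFinOfCardEq (by
    rw [← hk, Set.ncard_eq_toFinset_card', Set.toFinset_card])
  choose π hπ using fun i : Fin (k + 2) => two_perm (by omega)
    ((Fin.castLE_injective kd).ne (by simp : i ≠ i + 1))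
  refine ⟨fun p => if h : core T u p.2 then π (e ⟨p.2, h⟩) else 1, fun c => ?_⟩
  by_cases hc : c.1 < k + 2
  · obtain ⟨c, rfl⟩ : ∃ c', c = Fin.castLE kd c' := ⟨⟨_, hc⟩, rfl⟩
    refine .inr ⟨e.symm c, e.symm (c - 1), fun l => ?_, fun x => ⟨fun ⟨l, l'⟩ => ?_, ?_⟩⟩
    · simpa [eq_sub_iff_add_eq] using e.symm.injective (Subtype.ext l)
    · simp only [dif_pos l, hπ, Fin.castLE_inj] at l'
      rcases l' with rfl | rfl <;> simp
    · rintro (rfl | rfl)
      · have l : core T u (e.symm c) := (e.symm c).2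
        exact ⟨l, by simp only [dif_pos l, hπ]; simp⟩
      · have l : core T u (e.symm (c - 1)) := (e.symm _).2
        exact ⟨l, by simp only [dif_pos l, hπ]; simp⟩
  · refine .inl fun x ⟨l, l'⟩ => hc ?_
    simp only [dif_pos l, hπ] at l'
    rcases l' with rfl | rfl <;> rw [Fin.val_castLE] <;> exact Fin.is_lt _

lemma Adm.count {d : ℕ} (hd : 2 ≤ d) {φ : V × V → Perm (Fin d)} (h : Adm T u φ)
    (hf : (T.neighborSet u).Finite) :
    {c | ∃ v, core T u v ∧ (φ (u, v) c).1 < 2}.ncard = {v | core T u v}.ncard := by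
  classical
  have f : {v | core T u v}.Finite := hf.subset fun _ h => h.1
  have := Finset.sum_card_bipartiteAbove_eq_sum_card_bipartiteBelow (s := f.toFinset)
    (t := Finset.univ) fun v c => (φ (u, v) c).1 < 2
  rw [Finset.sum_congr rfl (g := fun _ => 2) fun v _ => ?_, Finset.sum_congr rfl
    (g := fun c => if ∃ v, core T u v ∧ (φ (u, v) c).1 < 2 then 2 else 0) fun c _ => ?_,
    ← Finset.sum_filter, Finset.sum_const, Finset.sum_const, smul_eq_mul, smul_eq_mul] at this
  · rw [Set.ncard_eq_toFinset_card _ f, Set.ncard_eq_toFinset_card', Set.toFinset_ofPred]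
    omega
  · rcases h c with k | ⟨a, b, hab, k⟩
    · rw [if_neg (not_exists.2 k), Finset.card_eq_zero]
      exact Finset.filter_eq_empty_iff.2 fun v hv l => k v ⟨by simpa using hv, l⟩
    · rw [if_pos ⟨a, (k a).2 (.inl rfl)⟩]
      refine Eq.trans ?_ (Finset.card_pair hab)
      congr 1
      ext v
      simpa using k v
  · refine Eq.trans ?_ (Fin.card_filter_val_lt (n := d) (m := 2) |>.trans (min_eq_right hd))
    exact Finset.card_equiv (φ (u, v)) (by simp)

end Pool.Agent.H.MP_f65c66_pr
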