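import Mathlib
import Pool.Agent.H.MP_f65c66_pr.A

open SimpleGraph Relation Equiv MeasureTheory ProbabilityTheory Filter
open scoped ENNReal

namespace Pool.Agent.H.MP_f65c66_pr

lemma rtg_meas {Ω α : Type} [MeasurableSpace Ω] [Countable α] {r : Ω → α → α → Prop}
    (h : ∀ a b, Measurable fun ω => r ω a b) (a b : α) :
    Measurable fun ω => ReflTransGen (r ω) a b := by
  let It : Ω → ℕ → α → Prop := fun ω n => Nat.rec (· = a) (fun _ p b => ∃ c, p c ∧ r ω c b) n
  have h1 : ∀ n b, Measurable fun ω => It ω n b := fun n => by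
    induction n with
    | zero => exact fun b => measurable_const
    | succ n ih => exact fun b => .exists fun c => (ih c).and (h c b)
  convert Measurable.exists fun n => h1 n b using 2 with ω
  refine ⟨fun k => ?_, ?_⟩
  · induction k with
    | refl => exact ⟨0, rfl⟩
    | tail _ l ih => exact ih.elim fun n k => ⟨n + 1, _, k, l⟩
  · rintro ⟨n, k⟩
    induction n generalizing b with
    | zero => exact k ▸ .refl
    | succ n ih => exact k.elim fun c l => (ih c l.1).tail l.2

variable {d : ℕ}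

instance : MeasurableSpace (Perm (Fin d)) := ⊤

instance : DiscreteMeasurableSpace (Perm (Fin d)) := ⟨fun _ => trivial⟩

abbrev Sd (d : ℕ) : Type := ℕ → ℕ × ℕ → Perm (Fin d)

noncomputable def ph (T : SimpleGraph ℕ) (ξ : Sd d) : ℕ × ℕ → Perm (Fin d) :=
  fun p => ξ (sInf {n | Adm T p.1 (ξ n)}) p

def Lg (T : SimpleGraph ℕ) (φ : ℕ × ℕ → Perm (Fin d)) (θ : Fin d) : SimpleGraph ℕ where
  Adj u v := core T u v ∧ (∃ c, Val T φ (0, θ) (u, c) ∧ (φ (u, v) c).1 < 2) ∧
    ∃ c, Val T φ (0, θ) (v, c) ∧ (φ (v, u) c).1 < 2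
  symm := ⟨fun _ _ h => ⟨h.1.symm, h.2.2, h.2.1⟩⟩
  loopless := ⟨fun _ h => h.1.1.ne rfl⟩

lemma Lg_adj {T : SimpleGraph ℕ} (hc : T.Connected) {φ : ℕ × ℕ → Perm (Fin d)} {Θ : ℕ → Fin d}
    (h : Cons T φ Θ) {u v : ℕ} :
    (Lg T φ (Θ 0)).Adj u v ↔ core T u v ∧ (φ (u, v) (Θ u)).1 < 2 := by
  simp only [Lg, val_iff hc h, exists_eq_left]
  exact and_congr_right fun l => by rw [h u v l.1, and_self]

section
variable {Ω : Type} [MeasurableSpace Ω] {T : Ω → SimpleGraph ℕ} (hT : Measurable T)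
include hT

lemma fn_meas (u v : ℕ) : Measurable fun ω => fn (T ω) u v := by
  have h := measurable_iff_adj.1 hT
  refine (h u v).and ?_
  have : ∀ s : Set ℕ, s.Finite ↔ ∃ n, ∀ w, w ∈ s → w ≤ n := fun s =>
    ⟨fun f => f.bddAbove, fun f => BddAbove.finite f⟩
  simp only [this]
  exact .exists fun n => .forall fun w =>
    (rtg_meas (fun a b => (h a b).and measurable_const) v w).imp measurable_const

lemma core_meas (u v : ℕ) : Measurable fun ω => core (T ω) u v :=
  (measurable_iff_adj.1 hT u v).and ((fn_meas hT u v).not.and (fn_meas hT v u).not)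

omit hT in
lemma ev_meas {φ : Ω → ℕ × ℕ → Perm (Fin d)} (hφ : Measurable φ) (p : ℕ × ℕ) (c : Fin d) :
    Measurable fun ω => (φ ω p c).1 < 2 :=
  (Measurable.of_discrete (f := fun π : Perm (Fin d) => (π c).1 < 2)).comp
    ((measurable_pi_apply p).comp hφ)

lemma adm_meas {φ : Ω → ℕ × ℕ → Perm (Fin d)} (hφ : Measurable φ) (u : ℕ) :
    Measurable fun ω => Adm (T ω) u (φ ω) := by
  have h := fun c v => (core_meas hT u v).and (ev_meas hφ (u, v) c)
  exact .forall fun c => (Measurable.forall fun v => (h c v).not).or (.exists fun a =>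
    .exists fun b => measurable_const.and (.forall fun v => (h c v).iff measurable_const))

lemma ph_meas {ξ : Ω → Sd d} (hξ : Measurable ξ) : Measurable fun ω => ph (T ω) (ξ ω) := by
  refine measurable_pi_lambda _ fun p => ?_
  have h := fun n => adm_meas hT ((measurable_pi_apply n).comp hξ) p.1
  have h1 : Measurable fun ω => sInf {n | Adm (T ω) p.1 (ξ ω n)} := by
    refine measurable_to_countable' fun n => ?_
    have : ∀ s : Set ℕ, sInf s = n ↔ (n ∈ s ∧ ∀ m < n, m ∉ s) ∨ (n = 0 ∧ ∀ m, m ∉ s) := fun s => by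
      rcases s.eq_empty_or_nonempty with rfl | e
      · simp [eq_comm]
      · refine ⟨fun l => .inl (l ▸ ⟨Nat.sInf_mem e, fun m => Nat.notMem_of_lt_sInf⟩), ?_⟩
        rintro (l | l)
        · exact le_antisymm (Nat.sInf_le l.1) (not_lt.1 fun k => l.2 _ k (Nat.sInf_mem e))
        · exact absurd (Nat.sInf_mem e) (l.2 _)
    simp only [Set.preimage, Set.mem_singleton_iff, this]
    exact measurableSet_setOfPred.2 (((h n).and (.forall fun m => measurable_const.imp (h m).not)).or
      (measurable_const.and (.forall fun m => (h m).not)))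
  exact (measurable_from_prod_countable_left (f := fun q : Ω × ℕ => ξ q.1 q.2 p) fun n =>
    (measurable_pi_apply p).comp ((measurable_pi_apply n).comp hξ)).comp (measurable_id.prodMk h1)

lemma Lg_meas {φ : Ω → ℕ × ℕ → Perm (Fin d)} (hφ : Measurable φ) {θ : Ω → Fin d}
    (hθ : Measurable θ) : Measurable fun ω => Lg (T ω) (φ ω) (θ ω) := by
  have h : ∀ b, Measurable fun ω => Val (T ω) (φ ω) (0, θ ω) b := fun b => by
    have : ∀ t, Measurable fun ω => Val (T ω) (φ ω) (0, t) b := fun t => rtg_meas (fun a b : ℕ × Fin d => by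
      exact (measurable_iff_adj.1 hT _ _).and ((Measurable.of_discrete
        (f := fun π : Perm (Fin d) × Perm (Fin d) => π.1 a.2 = π.2 b.2)).comp
        (((measurable_pi_apply _).comp hφ).prodMk ((measurable_pi_apply _).comp hφ)))) _ _
    exact (measurable_from_prod_countable_left
      (f := fun q : Ω × Fin d => Val (T q.1) (φ q.1) (0, q.2) b) this).comp (measurable_id.prodMk hθ)
  exact measurable_iff_adj.2 fun u v => (core_meas hT u v).and
    ((Measurable.exists fun c => (h _).and (ev_meas hφ _ c)).and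
      (.exists fun c => (h _).and (ev_meas hφ _ c)))

end

noncomputable def L (T : SimpleGraph ℕ) (ω : Sd d × Fin d) : SimpleGraph ℕ := Lg T (ph T ω.1) ω.2

lemma L_meas : Measurable fun p : SimpleGraph ℕ × (Sd d × Fin d) => L p.1 p.2 :=
  Lg_meas measurable_fst (ph_meas measurable_fst measurable_snd.fst) measurable_snd.snd

noncomputable def Xi (d : ℕ) : Measure (Sd d) :=
  Measure.infinitePi fun _ => Measure.infinitePi fun _ => uniformOn Set.univ

instance : IsProbabilityMeasure (Xi d) := by unfold Xi; infer_instance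

noncomputable def nu (d : ℕ) : Measure (Sd d × Fin d) := (Xi d).prod (uniformOn Set.univ)

instance [NeZero d] : IsProbabilityMeasure (nu d) := by unfold nu; infer_instance

lemma unif_perm [NeZero d] (e : Fin d → Fin d) (he : e.Injective) (g : Fin d → ℝ≥0∞) :
    ∫⁻ θ, g (e θ) ∂uniformOn Set.univ = ∫⁻ θ, g θ ∂uniformOn Set.univ := by
  simp only [lintegral_fintype, uniformOn_univ, Measure.count_singleton]
  exact (Finite.injective_iff_bijective.1 he).sum_comp fun θ => g θ * _

lemma Z2_iff {p : ℕ → Prop} (σ : ℕ ≃ ℕ) : Z2 (fun v => p (σ v)) ↔ Z2 p := by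
  suffices ∀ (p : ℕ → Prop) (σ : ℕ ≃ ℕ), Z2 p → Z2 fun v => p (σ v) from
    ⟨fun h => by simpa using this _ σ.symm h, this p σ⟩
  rintro p σ (h | ⟨a, b, h, k⟩)
  · exact .inl fun v => h _
  · exact .inr ⟨σ.symm a, σ.symm b, σ.symm.injective.ne h, fun v => by simp [k, eq_symm_apply]⟩

lemma equiv [NeZero d] {T T' : SimpleGraph ℕ} (h : T.IsTree) (σ : T ≃g T')
    {G G' : SimpleGraph ℕ → ℝ≥0∞} (hG : Measurable G) (hG' : Measurable G')
    (e : ∀ L L' : SimpleGraph ℕ, (∀ u v, L'.Adj (σ u) (σ v) ↔ L.Adj u v) → G' L' = G L) :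
    ∫⁻ ω, G' (L T' ω) ∂nu d = ∫⁻ ω, G (L T ω) ∂nu d := by
  have m : ∀ T, Measurable fun ω : Sd d × Fin d => L T ω := fun T =>
    L_meas.comp (measurable_const.prodMk measurable_id)
  let act : Sd d → Sd d := fun ξ n p => ξ n (σ p.1, σ p.2)
  have ma : MeasurePreserving act (Xi d) (Xi d) := ⟨by fun_prop, by
    rw [Xi, Measure.infinitePi_map_pi _ (f := fun _ (φ : ℕ × ℕ → Perm (Fin d)) (p : ℕ × ℕ) =>
      φ (σ p.1, σ p.2)) (by fun_prop)]
    congr 1
    funext n
    exact Measure.map_infinitePi_infinitePi_of_inj (f := fun p : ℕ × ℕ => (σ p.1, σ p.2))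
      (σ.injective.prodMap σ.injective)⟩
  have m1 : Measurable fun ω : Sd d × Fin d => G (L T ω) := hG.comp (m T)
  have m2 : Measurable fun ω : Sd d × Fin d => G' (L T' ω) := hG'.comp (m T')
  rw [nu, lintegral_prod _ m1.aemeasurable, lintegral_prod _ m2.aemeasurable,
    ← ma.lintegral_comp m1.lintegral_prod_right']
  refine lintegral_congr fun ξ => ?_
  have h' := σ.isTree_iff.1 h
  have e1 : ∀ u v, ph T (act ξ) (u, v) = ph T' ξ (σ u, σ v) := fun u v => by
    have : ∀ n, Adm T u (act ξ n) ↔ Adm T' (σ u) (ξ n) := fun n => forall_congr' fun c => by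
      rw [← Z2_iff (p := fun v => core T' (σ u) v ∧ _) σ.toEquiv]
      simp only [RelIso.coe_fn_toEquiv, core_iso, act]
    simp only [ph, this, act]
  choose Θ h1 h2 using cons_ex h' (ph T' ξ) 0
  have h3 : ∀ θ, Cons T (ph T (act ξ)) (Θ θ ∘ σ) := fun θ u v l => by
    rw [e1, e1]; exact h1 θ _ _ (σ.map_adj_iff.2 l)
  refine Eq.trans (lintegral_congr fun θ => e _ _ fun u v => ?_) (unif_perm (fun θ => Θ θ (σ 0))
    (fun θ θ' k => by rw [← h2 θ, cons_uniq h'.connected (h1 θ) (h1 θ') k, h2])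
    fun θ => G (L T (act ξ, θ)))
  have k := Lg_adj h'.connected (h1 θ) (u := σ u) (v := σ v)
  rw [h2] at k
  exact k.trans (Iff.trans (by rw [core_iso, e1]; rfl) (Lg_adj h.connected (h3 θ)).symm)

lemma adm_ae {T : SimpleGraph ℕ} (h : T.IsTree) (hf : ∀ v, (T.neighborSet v).Finite)
    (hd : ∀ v, (T.neighborSet v).ncard ≤ d) : ∀ᵐ ξ ∂Xi d, ∀ u, Adm T u (ph T ξ) := by
  refine ae_all_iff.2 fun u => ?_
  obtain ⟨φ, hφ⟩ := adm_ex h.isAcyclic (hf u) (hd u)
  let μ : Measure (ℕ × ℕ → Perm (Fin d)) := Measure.infinitePi fun _ => uniformOn Set.univ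
  let E : Set (ℕ × ℕ → Perm (Fin d)) := {ψ | Adm T u ψ}
  have mE : MeasurableSet E := measurableSet_setOfPred.2 (adm_meas measurable_const measurable_id u)
  have h1 : μ Eᶜ < 1 := by
    classical
    rw [prob_compl_eq_one_sub mE]
    refine ENNReal.sub_lt_self (by simp) (by simp) (ne_of_gt (lt_of_lt_of_le ?_ (measure_mono
      (s := Set.pi ↑((hf u).toFinset.image (u, ·)) fun p => {φ p}) fun ψ l c => ?_)))
    · rw [Measure.infinitePi_pi _ fun _ _ => .of_discrete]
      exact pos_iff_ne_zero.2 (Finset.prod_ne_zero_iff.2 fun _ _ => by simp [uniformOn_univ])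
    · convert hφ c using 2 with v
      exact and_congr_right fun k => by rw [l (u, v) (by simpa using k.1)]
  refine nonpos_iff_eq_zero.1 (ge_of_tendsto' (ENNReal.tendsto_pow_atTop_nhds_zero_of_lt_one h1)
    fun N => ?_)
  refine le_trans (measure_mono (t := Set.pi ↑(Finset.range N) fun _ => Eᶜ) ?_) ?_
  · exact fun ξ l n _ k => l (Nat.sInf_mem (s := {n | Adm T u (ξ n)}) ⟨n, k⟩)
  rw [Xi, Measure.infinitePi_pi _ fun _ _ => mE.compl]
  simp [μ]

lemma L_deg {T : SimpleGraph ℕ} (h : T.IsTree) {ω : Sd d × Fin d} {u : ℕ} (ha : Adm T u (ph T ω.1)) :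
    ((L T ω).neighborSet u).encard = 0 ∨ ((L T ω).neighborSet u).encard = 2 := by
  obtain ⟨Θ, h1, h2⟩ := cons_ex h (ph T ω.1) 0 ω.2
  have k : ∀ v, v ∈ (L T ω).neighborSet u ↔ _ := fun v => h2 ▸ Lg_adj h.connected h1 (u := u) (v := v)
  rcases ha (Θ u) with l | ⟨a, b, hab, l⟩
  · exact .inl (Set.encard_eq_zero.2 (Set.eq_empty_of_forall_notMem fun v e => l v ((k v).1 e)))
  · exact .inr (Set.encard_eq_two.2 ⟨a, b, hab, Set.ext fun v => (k v).trans (l v)⟩)

lemma L_dens [NeZero d] (h2 : 2 ≤ d) {T : SimpleGraph ℕ} (h : T.IsTree)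
    (hf : ∀ v, (T.neighborSet v).Finite) (hd : ∀ v, (T.neighborSet v).ncard ≤ d) :
    nu d {ω | ∃ v, (L T ω).Adj 0 v} = {v | core T 0 v}.ncard / d := by
  have m : Measurable fun ω : Sd d × Fin d => L T ω :=
    L_meas.comp (measurable_const.prodMk measurable_id)
  rw [nu, Measure.prod_apply (measurableSet_setOfPred.2 (.exists (measurable_iff_adj.1 m 0))),
    lintegral_congr_ae (g := fun _ => {v | core T 0 v}.ncard / d), lintegral_const, measure_univ,
    mul_one]
  filter_upwards [adm_ae h hf hd] with ξ l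
  rw [uniformOn_univ, ← (l 0).count h2 (hf 0), Measure.count_apply .of_discrete, Fintype.card_fin,
    ← (Set.toFinite _).cast_ncard_eq]
  refine congrArg (fun s : Set (Fin d) => (((s.ncard : ℕ∞) : ℝ≥0∞)) / d) (Set.ext fun θ => ?_)
  obtain ⟨Θ, h1, rfl⟩ := cons_ex h (ph T ξ) 0 θ
  exact exists_congr fun v => Lg_adj h.connected h1

end Pool.Agent.H.MP_f65c66_pr
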