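import Mathlib
import Pool.Agent.H.MP_f65c66_pr.B

open SimpleGraph MeasureTheory ProbabilityTheory Filter
open scoped ENNReal

namespace Pool.Agent.H.MP_f65c66_pr

abbrev Tr : Type := {T : SimpleGraph ℕ // T.IsTree ∧ ∀ v, (T.neighborSet v).Finite}

def Unimod (P : Measure Tr) : Prop :=
  ∀ F : Tr → ℕ → ℕ → ℝ≥0∞, (∀ x y, Measurable fun T => F T x y) →
    (∀ (T T' : Tr) (σ : T.1 ≃g T'.1) x y, F T' (σ x) (σ y) = F T x y) →
    ∫⁻ T, ∑' v, F T 0 v ∂P = ∫⁻ T, ∑' v, F T v 0 ∂P

def UnimodM (Q : Measure (Tr × SimpleGraph ℕ)) : Prop :=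
  ∀ F : Tr × SimpleGraph ℕ → ℕ → ℕ → ℝ≥0∞, (∀ x y, Measurable fun p => F p x y) →
    (∀ (p p' : Tr × SimpleGraph ℕ) (σ : p.1.1 ≃g p'.1.1),
      (∀ u v, p'.2.Adj (σ u) (σ v) ↔ p.2.Adj u v) → ∀ x y, F p' (σ x) (σ y) = F p x y) →
    ∫⁻ p, ∑' v, F p 0 v ∂Q = ∫⁻ p, ∑' v, F p v 0 ∂Q

open Classical in
lemma cnt (p : ℕ → Prop) : ∑' v, (if p v then 1 else 0 : ℝ≥0∞) = {v | p v}.encard := by
  rw [← ENNReal.tsum_set_one, tsum_subtype {v | p v} fun _ => (1 : ℝ≥0∞)]
  rfl

lemma cnt_meas {Ω : Type} [MeasurableSpace Ω] {p : Ω → ℕ → Prop} (h : ∀ v, Measurable (p · v)) :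
    Measurable fun ω => ({v | p ω v}.encard : ℝ≥0∞) := by
  classical
  simp only [← cnt]
  exact .tsum fun v => .ite (measurableSet_setOfPred.2 (h v)) measurable_const measurable_const

variable {P : Measure Tr}

lemma Unimod.rel (hP : Unimod P) (r : Tr → ℕ → ℕ → Prop) (hm : ∀ x y, Measurable fun T => r T x y)
    (hr : ∀ (T T' : Tr) (σ : T.1 ≃g T'.1) x y, r T' (σ x) (σ y) ↔ r T x y) :
    ∫⁻ T, {v | r T 0 v}.encard ∂P = ∫⁻ T, {v | r T v 0}.encard ∂P := by
  classical
  simp only [← cnt]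
  exact hP (fun T x y => if r T x y then 1 else 0) (fun x y => .ite
    (measurableSet_setOfPred.2 (hm x y)) measurable_const measurable_const)
    fun T T' σ x y => by simp only [hr]

lemma Unimod.all (hP : Unimod P) (p : Tr → ℕ → Prop) (hm : ∀ x, Measurable fun T => p T x)
    (hr : ∀ (T T' : Tr) (σ : T.1 ≃g T'.1) x, p T' (σ x) ↔ p T x) (h : ∀ᵐ T ∂P, ¬ p T 0) :
    ∀ᵐ T ∂P, ∀ v, ¬ p T v := by
  have := hP.rel (fun T _ y => p T y) (fun _ => hm) fun T T' σ _ => hr T T' σ
  rw [lintegral_congr_ae (g := fun _ => 0) (f := fun T => ({v : ℕ | p T 0}.encard : ℝ≥0∞))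
    (h.mono fun T l => by simp [l]), lintegral_zero, lintegral_eq_zero_iff (cnt_meas hm)] at this
  exact this.mono fun T l => by simpa [Set.eq_empty_iff_forall_notMem] using l

lemma split (T : Tr) (o : ℕ) : ((T.1.neighborSet o).encard : ℝ≥0∞) =
    {v | core T.1 o v}.encard + {v | fn T.1 v o}.encard + {v | fn T.1 o v}.encard := by
  norm_cast
  rw [← Set.encard_union_eq, ← Set.encard_union_eq]
  · congr 1
    ext v
    refine ⟨fun h => ?_, ?_⟩
    · by_contra l
      simp only [Set.mem_union, Set.mem_ofPred_eq, not_or] at l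
      exact l.1.1 ⟨h, l.2, l.1.2⟩
    · rintro ((h | h) | h)
      exacts [h.1, h.1.symm, h.1]
  · exact Set.disjoint_left.2 fun v h l => h.elim (·.2.1 l) (fn_asymm T.2.1.connected · l)
  · exact Set.disjoint_left.2 fun v h l => h.2.2 l

lemma in_one {T : Tr} {u o : ℕ} (h : fn T.1 u o) : {v | fn T.1 v o} = {u} :=
  Set.eq_singleton_iff_unique_mem.2 ⟨h, fun _ l => fn_uniq T.2.1.connected l h⟩

lemma mass {d : ℕ} (hd : 2 ≤ d) [IsProbabilityMeasure P] (hP : Unimod P)
    (hdeg : ∀ᵐ T ∂P, ∀ v, (T.1.neighborSet v).ncard ≤ d) :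
    3 * ∫⁻ T, (T.1.neighborSet 0).encard ∂P ≤ ∫⁻ T, {v | core T.1 0 v}.encard ∂P + 2 * d := by
  have mf := fn_meas (T := fun T : Tr => T.1) measurable_subtype_coe
  have mI := cnt_meas (mf · 0)
  have mO := cnt_meas (mf 0)
  have mK := cnt_meas (core_meas (T := fun T : Tr => T.1) measurable_subtype_coe 0)
  have mD : Measurable fun T : Tr => ((T.1.neighborSet 0).encard : ℝ≥0∞) :=
    cnt_meas (measurable_iff_adj.1 measurable_subtype_coe 0)
  have e1 := hP.rel (fun T => fn T.1) mf fun T T' σ x y => fn_iso σ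
  have I1 : ∀ T : Tr, ({v | fn T.1 v 0}.encard : ℝ≥0∞) ≤ 1 := fun T => by
    exact_mod_cast Set.encard_le_one_iff.2 fun a b h h' => fn_uniq T.2.1.connected h h'
  have b1 : ∫⁻ T, {v | fn T.1 v 0}.encard ∂P ≤ 1 := (lintegral_mono I1).trans (by simp)
  have dg : ∀ᵐ T ∂P, ∀ v, (T.1.neighborSet v).encard ≤ (d : ℕ∞) := hdeg.mono fun T l v => by
    rw [← (T.2.2 v).cast_ncard_eq]; exact_mod_cast l v
  have e2 : ∫⁻ T, (T.1.neighborSet 0).encard ∂P + ∫⁻ T, {v | fn T.1 v 0}.encard ∂P ≤ d := by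
    rcases hd.eq_or_lt with rfl | hd
    · have key : ∀ᵐ T ∂P, ({v | fn T.1 0 v}.encard : ℝ≥0∞) ≤ {v | fn T.1 v 0}.encard := by
        filter_upwards [dg] with T l
        rcases {v | fn T.1 0 v}.eq_empty_or_nonempty with e | ⟨w, hw⟩
        · simp [e]
        obtain ⟨u, h, hu⟩ : ∃ u, T.1.Adj 0 u ∧ ¬ fn T.1 0 u := by
          by_contra! k
          exact fn_asymm T.2.1.connected hw (fn_up (T.2.2 0) hw.1.symm fun v h _ => k v h)
        have ne : u ≠ w := fun e => hu (e ▸ hw)
        have s : ∀ v, T.1.Adj 0 v → v ≠ u → v = w := fun v a b => by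
          by_contra c
          have := (Set.encard_le_encard (s := {v, u, w}) (by
            simp [Set.insert_subset_iff, a, h, hw.1])).trans (l 0)
          rw [Set.encard_insert_of_notMem (by simp [b, c]), Set.encard_pair ne] at this
          norm_num at this
        rw [in_one (fn_up (T.2.2 0) h.symm fun v a b => s v a b ▸ hw), Set.encard_singleton]
        exact_mod_cast Set.encard_le_one_iff.2 fun a b k k' =>
          (s a k.1 fun e => hu (e ▸ k)).trans (s b k'.1 fun e => hu (e ▸ k')).symm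
      have k2 := ae_eq_of_ae_le_of_lintegral_le key (e1 ▸ (b1.trans_lt ENNReal.one_lt_top).ne)
        mI.aemeasurable e1.ge
      have k3 := hP.all (fun T v => (∃ u, fn T.1 u v) ∧ ∀ w, ¬ fn T.1 v w)
        (fun x => (Measurable.exists (mf · x)).and (.forall fun w => (mf x w).not))
        (fun T T' σ x => by rw [σ.surjective.exists, σ.surjective.forall]; simp only [fn_iso])
        (k2.mono fun T l ⟨⟨u, h⟩, h'⟩ => by
          simp [in_one h, Set.eq_empty_of_forall_notMem (s := {v | fn T.1 0 v}) h'] at l)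
      rw [lintegral_congr_ae (g := fun _ => 0) (f := fun T : Tr => ({v | fn T.1 v 0}.encard : ℝ≥0∞))
        (k3.mono fun T l => ?_), lintegral_zero, add_zero]
      · exact (lintegral_mono_ae (g := fun _ => 2) (dg.mono fun T l => by exact_mod_cast l 0)).trans (by simp)
      · have : ∀ v, ¬ fn T.1 v 0 := fun v => no_fn T.2.1.isAcyclic
          (fun u v h => by simpa using not_and.1 (l v) ⟨u, h⟩) T.2.1.connected
        simp [this]
    · have key : ∀ᵐ T ∂P, ((T.1.neighborSet 0).encard : ℝ≥0∞) + 3 * {v | fn T.1 v 0}.encard ≤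
          d + {v | fn T.1 v 0}.encard + {v | fn T.1 0 v}.encard := by
        filter_upwards [dg] with T l
        rcases {v | fn T.1 v 0}.eq_empty_or_nonempty with e | ⟨u, hu⟩
        · simpa [e] using le_add_right (by exact_mod_cast l 0)
        · have : {v | core T.1 0 v} = ∅ := Set.eq_empty_of_forall_notMem fun v h =>
            h.2.1 (fn_down T.2.1.isAcyclic hu h.1 fun e => h.2.2 (e ▸ hu))
          rw [split, this, in_one hu]
          have : (3 : ℝ≥0∞) ≤ d := by exact_mod_cast hd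
          simp only [Set.encard_empty, Set.encard_singleton, ENat.toENNReal_zero, ENat.toENNReal_one,
            zero_add, mul_one]
          rw [add_comm, add_assoc]
          gcongr
      have := lintegral_mono_ae key
      rw [lintegral_add_left mD, lintegral_add_right _ mO, lintegral_add_right _ mI,
        lintegral_const_mul _ mI, e1, lintegral_const, measure_univ, mul_one] at this
      have b2 := (b1.trans_lt ENNReal.one_lt_top).ne
      refine ENNReal.le_of_add_le_add_right (ENNReal.add_ne_top.2 ⟨b2, b2⟩) ?_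
      convert this using 1 <;> ring
  have e3 := lintegral_congr (μ := P) fun T => split T 0
  rw [lintegral_add_right _ mO, lintegral_add_right _ mI, e1] at e3
  calc _ = ∫⁻ T, (T.1.neighborSet 0).encard ∂P + 2 * ∫⁻ T, (T.1.neighborSet 0).encard ∂P := by ring
    _ = ∫⁻ T, {v | core T.1 0 v}.encard ∂P + 2 * (∫⁻ T, (T.1.neighborSet 0).encard ∂P +
      ∫⁻ T, {v | fn T.1 v 0}.encard ∂P) := by nth_rewrite 1 [e3]; ring
    _ ≤ _ := by gcongr

theorem main (d : ℕ) (hd : 2 ≤ d) (P : Measure Tr) [IsProbabilityMeasure P] (hP : Unimod P)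
    (hdeg : ∀ᵐ T ∂P, (T.1.neighborSet 0).ncard ≤ d) :
    ∃ Q : Measure (Tr × SimpleGraph ℕ), IsProbabilityMeasure Q ∧ Q.map Prod.fst = P ∧ UnimodM Q ∧
      (∀ᵐ p ∂Q, p.2 ≤ p.1.1 ∧
        ∀ v, (p.2.neighborSet v).encard = 0 ∨ (p.2.neighborSet v).encard = 2) ∧
      3 * ((∫ T, ((T.1.neighborSet 0).ncard : ℝ) ∂P) / d) - 2 ≤ Q.real {p | ∃ v, p.2.Adj 0 v} := by
  have : NeZero d := ⟨by omega⟩
  have mA := measurable_iff_adj.1 (measurable_subtype_coe : Measurable fun T : Tr => T.1)
  have nc : ∀ (T : Tr) v, ((T.1.neighborSet v).encard : ℝ≥0∞) = (T.1.neighborSet v).ncard :=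
    fun T v => by rw [← (T.2.2 v).cast_ncard_eq]; rfl
  replace hdeg : ∀ᵐ T ∂P, ∀ v, (T.1.neighborSet v).ncard ≤ d := by
    have := hP.all (fun T v => (d : ℝ≥0∞) < (T.1.neighborSet v).encard)
      (fun x => measurableSet_setOfPred.1 (measurableSet_lt measurable_const (cnt_meas (mA x))))
      (fun T T' σ x => by rw [← Set.encard_congr (σ.mapNeighborSet x)]) (by simpa [nc] using hdeg)
    simpa [nc] using this
  let Φ : Tr × (Sd d × Fin d) → Tr × SimpleGraph ℕ := fun p => (p.1, L p.1.1 p.2)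
  have mΦ : Measurable Φ := measurable_fst.prodMk (L_meas.comp
    ((measurable_subtype_coe.comp measurable_fst).prodMk measurable_snd))
  have mB := measurable_iff_adj.1 (measurable_snd : Measurable fun p : Tr × SimpleGraph ℕ => p.2)
  refine ⟨(P.prod (nu d)).map Φ, Measure.isProbabilityMeasure_map mΦ.aemeasurable, ?_,
    fun F h1 h2 => ?_, ?_, ?_⟩
  · rw [Measure.map_map measurable_fst mΦ]
    exact (measurePreserving_fst (μ := P) (ν := nu d)).map_eq
  · have m : ∀ x y, Measurable fun p => F (Φ p) x y := fun x y => (h1 x y).comp mΦ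
    have k : ∀ a b : ℕ → ℕ, ∫⁻ p, ∑' v, F p (a v) (b v) ∂(P.prod (nu d)).map Φ =
        ∫⁻ T, ∑' v, ∫⁻ ω, F (Φ (T, ω)) (a v) (b v) ∂nu d ∂P := fun a b => by
      rw [lintegral_map (.tsum fun v => h1 _ _) mΦ,
        lintegral_prod _ (Measurable.tsum fun v => m _ _).aemeasurable]
      exact lintegral_congr fun T => lintegral_tsum fun v =>
        ((m _ _).comp measurable_prodMk_left).aemeasurable
    exact (k _ id).trans ((hP (fun T x y => ∫⁻ ω, F (Φ (T, ω)) x y ∂nu d)
      (fun x y => (m x y).lintegral_prod_right') fun T T' σ x y => equiv T.2.1 σ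
        (G := fun L => F (T, L) x y) (G' := fun L => F (T', L) (σ x) (σ y))
        ((h1 _ _).comp measurable_prodMk_left) ((h1 _ _).comp measurable_prodMk_left)
        fun L L' e => h2 (T, L) (T', L') σ e x y).trans (k id _).symm)
  · have ms : MeasurableSet {p : Tr × SimpleGraph ℕ | p.2 ≤ p.1.1 ∧
        ∀ v, (p.2.neighborSet v).encard = 0 ∨ (p.2.neighborSet v).encard = 2} := by
      have e : ∀ x : ℕ∞, x = 0 ∨ x = 2 ↔ (x : ℝ≥0∞) ∈ ({0, 2} : Set ℝ≥0∞) := fun x => by
        simp only [Set.mem_insert_iff, Set.mem_singleton_iff]; norm_cast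
      simp only [e]
      exact measurableSet_setOfPred.2 ((Measurable.forall fun u => .forall fun v => (mB u v).imp
        ((mA u v).comp measurable_fst)).and (.forall fun v => measurableSet_setOfPred.1
          (cnt_meas (mB v) (by measurability))))
    rw [ae_map_iff mΦ.aemeasurable ms]
    refine (Measure.ae_prod_iff_ae_ae (mΦ ms)).2 (hdeg.mono fun T l => ?_)
    filter_upwards [(measurePreserving_fst (μ := Xi d) (ν := uniformOn Set.univ)).quasiMeasurePreserving.ae
      (adm_ae T.2.1 T.2.2 l)] with ω k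
    exact ⟨fun u v h => h.1.1, fun v => L_deg T.2.1 (k v)⟩
  · have ms : MeasurableSet {p : Tr × SimpleGraph ℕ | ∃ v, p.2.Adj 0 v} :=
      measurableSet_setOfPred.2 (.exists (mB 0))
    have mK := cnt_meas (core_meas (T := fun T : Tr => T.1) measurable_subtype_coe 0)
    have e : (P.prod (nu d)).map Φ {p | ∃ v, p.2.Adj 0 v} =
        (∫⁻ T, {v | core T.1 0 v}.encard ∂P) / d := by
      rw [Measure.map_apply mΦ ms, Measure.prod_apply (mΦ ms), div_eq_mul_inv,
        ← lintegral_mul_const _ mK]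
      refine lintegral_congr_ae (hdeg.mono fun T l => (L_dens hd T.2.1 T.2.2 l).trans ?_)
      have f : {v | core T.1 0 v}.Finite := (T.2.2 0).subset fun v h => h.1
      beta_reduce
      rw [← f.cast_ncard_eq]
      rfl
    have f : ∫⁻ T, {v | core T.1 0 v}.encard ∂P ≠ ∞ := fun l => by
      have := measure_ne_top ((P.prod (nu d)).map Φ) {p | ∃ v, p.2.Adj 0 v}
      rw [e, l] at this
      exact this (ENNReal.top_div_of_ne_top (by simp))
    have k := ENNReal.toReal_mono (by finiteness) (mass hd hP hdeg)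
    rw [ENNReal.toReal_mul,
      ENNReal.toReal_add f (by finiteness), ← integral_toReal (by exact (cnt_meas (mA 0)).aemeasurable)
        (.of_forall fun T => by simp [nc])] at k
    have d0 : (0 : ℝ) < d := by positivity
    rw [Measure.real, e, ENNReal.toReal_div, ENNReal.toReal_natCast, le_div_iff₀ d0]
    simp only [nc, ENNReal.toReal_natCast, ENNReal.toReal_mul, ENNReal.toReal_ofNat] at k
    field_simp
    linarith

end Pool.Agent.H.MP_f65c66_pr
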